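import Pool.Agent.R664.FC.Main

/-!
# Flat covers of acts over a monoid

Every right act over every monoid has a flat cover (the Flat Cover Conjecture for acts).

Idea.  Call a flat act `W` over `A` tight if it has no proper quotient over `A` which is flat.  By
the lemma of Zorn every flat act over `A` has a tight flat quotient over `A`.  The coequalizer of
two morphisms `P → W` over `A` which reflect the solvability of the chains of equations
`a = a₁ s₁, a₁ t₁ = a₂ s₂, …` is flat, so the two morphisms coincide if `W` is tight; hence the
points of `W` are determined by the isomorphism types of small pure subacts, and `W` is small.  So
there is a weakly terminal flat act over `A`, and a tight quotient `W` of it.  The quotient of `W`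
by the congruence generated by `x ∼ f(x)` is flat for every endomorphism `f`, so every
endomorphism of `W` over `A` is the identity, and `W → A` is a flat cover.
-/

set_option autoImplicit false

universe u

namespace Pool.Agent.Results.MP_6a819e_al.FlatCovers

open Pool.Agent.R664.FC

/-- For every monoid `S`, every right `S`-act has a flat cover. -/
theorem result (S : Type u) [Monoid S] (A : RAct S) :
    ∃ (F : RAct S) (g : RHom F A), IsFlatCover g :=
  main A

end Pool.Agent.Results.MP_6a819e_al.FlatCovers
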