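import Pool.Agent.R769.FC.Cover

set_option autoImplicit false

/-!
# The flat cover conjecture for acts over monoids

Every right act over every monoid has a flat cover. In particular the flat cover conjecture holds
for Act-`S` for every right-reversible monoid `S`.

Right acts of the monoid `S` are Mathlib's `MulAction Sᵐᵒᵖ A`, with `a <• s = op s • a`, left acts
are `MulAction S X`. The monoid and the acts live in an arbitrary universe.

Proof idea. Call a morphism `f : R → P` of right acts pure if all the maps
`R ⊗ Y → P ⊗ Y` are injective and every relation `f r ⊗ y = p ⊗ y'` in `P ⊗ Y` comes from a relation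
`r ⊗ y = r' ⊗ y'` in `R ⊗ Y`. Push-outs of flat acts along pure morphisms are flat, so the category
of all flat acts over `A`, with the pure morphisms, has the amalgamation property. The colimit of
any diagram of flat acts over a category with the amalgamation property is flat (this needs only
spans, no parallel pairs). The colimit `Ω` of all the flat acts over `A` is small, since every
element of a flat act lies in a small pure subact, and every flat act `F → A` maps to `Ω` by sending
`x` to its own class. So `Ω → A` is a flat precover. A cover is obtained from it by two transfinite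
constructions in the monoid of the endomorphisms of `Ω` over `A`.
-/

universe u v w

open scoped RightActions

namespace Pool.Agent.Results.MP_6a819e_al.FlatCoversExist

/-- The tensor product `A ⊗_S X` of a right act `A` and a left act `X`: the quotient of `A × X` by
the equivalence relation generated by `(a s, x) ~ (a, s x)`. -/
def Tensor (S : Type u) [Monoid S] (A : Type v) [MulAction Sᵐᵒᵖ A] (X : Type w)
    [MulAction S X] : Type (max v w) :=
  Quot fun p q : A × X => ∃ (a : A) (s : S) (x : X), p = (a <• s, x) ∧ q = (a, s • x)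

/-- The map `A ⊗ f : A ⊗_S X → A ⊗_S Y`, `a ⊗ x ↦ a ⊗ f x`. -/
def tensorMap {S : Type u} [Monoid S] (A : Type v) [MulAction Sᵐᵒᵖ A] {X Y : Type w}
    [MulAction S X] [MulAction S Y] (f : X →[S] Y) : Tensor S A X → Tensor S A Y :=
  Quot.map (fun p => (p.1, f p.2)) (by
    rintro p q ⟨a, s, x, rfl, rfl⟩
    exact ⟨a, s, f x, rfl, by simp⟩)

/-- The right act `A` is flat: `A ⊗_S -` sends the injective morphisms of left acts to injective
maps. -/
def IsFlat (S : Type u) [Monoid S] (A : Type u) [MulAction Sᵐᵒᵖ A] : Prop :=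
  ∀ (X Y : Type u) [MulAction S X] [MulAction S Y] (f : X →[S] Y),
    Function.Injective f → Function.Injective (tensorMap A f)

/-- The morphism `g : F → A` of right acts is a flat cover of `A`: `F` is flat, every morphism
`h : F' → A` with `F'` flat factors through `g`, and every endomorphism `f` of `F` with `g ∘ f = g`
is an automorphism. -/
structure IsFlatCover {S : Type u} [Monoid S] {A F : Type u} [MulAction Sᵐᵒᵖ A]
    [MulAction Sᵐᵒᵖ F] (g : F →[Sᵐᵒᵖ] A) : Prop where
  flat : IsFlat S F
  factor : ∀ (F' : Type u) [MulAction Sᵐᵒᵖ F'], IsFlat S F' → ∀ h : F' →[Sᵐᵒᵖ] A,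
    ∃ f : F' →[Sᵐᵒᵖ] F, h = g.comp f
  auto : ∀ f : F →[Sᵐᵒᵖ] F, g.comp f = g →
    ∃ f' : F →[Sᵐᵒᵖ] F, f.comp f' = MulActionHom.id Sᵐᵒᵖ ∧ f'.comp f = MulActionHom.id Sᵐᵒᵖ

theorem isFlat_iff (S : Type u) [Monoid S] (A : Type u) [MulAction Sᵐᵒᵖ A] :
    IsFlat S A ↔ Pool.Agent.R769.FC.IsFlat S A := Iff.rfl

/-- **The flat cover conjecture for acts over monoids.** For every monoid `S`, every (nonempty)
right `S`-act has a (nonempty) flat cover. -/
theorem result (S : Type u) [Monoid S] (A : Type u) [MulAction Sᵐᵒᵖ A] [Nonempty A] :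
    ∃ (F : Type u) (_ : MulAction Sᵐᵒᵖ F) (_ : Nonempty F) (g : F →[Sᵐᵒᵖ] A), IsFlatCover g := by
  obtain ⟨X, hX⟩ := Pool.Agent.R769.FC.exists_inj
    (⟨Pool.Agent.R769.FC.Om S A, inferInstance, Pool.Agent.R769.FC.omToA,
      Pool.Agent.R769.FC.om_flat, Pool.Agent.R769.FC.om_precover⟩ :
      Pool.Agent.R769.FC.WT S A)
  have hS : Pool.Agent.R769.FC.IsFlat S S := by
    rw [Pool.Agent.R769.FC.flat_iff]
    intro Y Z _ _ f hf a a' y y' h
    let φ : Pool.Agent.R769.FC.Tensor S S Z → Z := Quot.lift (fun p => p.1 • p.2) (by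
      rintro p q ⟨a, s, x, rfl, rfl⟩
      simp [mul_smul])
    have h1 : a • f y = a' • f y' := congrArg φ h
    have h2 : a • y = a' • y' := by
      apply hf
      rw [map_smul, map_smul, h1]
    have h3 : ∀ (b : S) (z : Y), Pool.Agent.R769.FC.tmk (S := S) b z =
        Pool.Agent.R769.FC.tmk (1 : S) (b • z) := by
      intro b z
      rw [← Pool.Agent.R769.FC.tmk_smul]
      simp
    rw [h3, h2, ← h3]
  have hne : Nonempty X.C := by
    obtain ⟨a⟩ := ‹Nonempty A›
    obtain ⟨f, -⟩ := X.wt S hS
      { toFun := fun s => a <• s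
        map_smul' := by
          intro s t
          simp [mul_smul] }
    exact ⟨f 1⟩
  refine ⟨X.C, X.act, hne, X.toA, X.flat, ?_, ?_⟩
  · intro F' _ hF' h
    obtain ⟨f, hf⟩ := X.wt F' hF' h
    exact ⟨f, by ext x; exact (hf x).symm⟩
  · intro f hf
    let e : Pool.Agent.R769.FC.EndA X := ⟨f, fun x => DFunLike.congr_fun hf x⟩
    have hb : Function.Bijective f :=
      ⟨hX e, Pool.Agent.R769.FC.surj_of_inj X hX e⟩
    obtain ⟨k, hk1, hk2⟩ := Function.bijective_iff_has_inverse.1 hb
    refine ⟨{ toFun := k, map_smul' := ?_ }, ?_, ?_⟩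
    · intro s x
      apply hb.1
      rw [map_smul]
      exact (hk2 _).trans (congrArg (s • ·) (hk2 x).symm)
    · ext x
      exact hk2 x
    · ext x
      exact hk1 x

end Pool.Agent.Results.MP_6a819e_al.FlatCoversExist
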